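import Pool.Agent.N375.RF.Basic

set_option autoImplicit false
set_option linter.dupNamespace false
set_option linter.unusedSectionVars false

/-!
# Project RF: Lemma A and Lemma B (double counting of leaf moves)
-/

namespace Pool.Agent.N897.RF

open Pool.Agent.N375.RF
open Finset Classical

variable {V : Type} [Fintype V]

/-- many leaf moves -/
theorem fwd {C : Finset V} {p : V → V} (h : IsRF C p) (R : Finset V) (hR : R ⊆ C) (s m : ℕ)
    (hs : ∀ v ∈ R, (L p v).card = s) (F : V → Finset V)
    (hF : ∀ v ∈ R, ∀ z ∈ F v, z ∉ L p v) (hm : ∀ v ∈ R, m ≤ (F v).card)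
    (Q : Finset (V → V)) (hQ : ∀ v ∈ R, ∀ w ∈ L p v, ∀ z ∈ F v, Function.update p z w ∈ Q) :
    R.card * s * m ≤ Q.card := by
  let P : Finset (V × V) := R.biUnion (fun v => L p v ×ˢ F v)
  have hP : R.card * (s * m) ≤ P.card := by
    rw [Finset.card_biUnion]
    · calc R.card * (s * m) = ∑ v ∈ R, s * m := by rw [sum_const, smul_eq_mul]
        _ ≤ ∑ v ∈ R, (L p v ×ˢ F v).card := by
          refine Finset.sum_le_sum (fun v hv => ?_)
          rw [Finset.card_product, hs v hv]
          exact Nat.mul_le_mul_left _ (hm v hv)
    · intro x hx y hy hne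
      rw [Function.onFun, Finset.disjoint_left]
      rintro ⟨a, b⟩ h1 h2
      rw [Finset.mem_product] at h1 h2
      exact hne (h.root_unique (hR hx) (hR hy) h1.1 h2.1)
  have hne : ∀ wz ∈ P, p wz.2 ≠ wz.1 := by
    rintro ⟨w, z⟩ hwz he
    obtain ⟨v, hv, h1⟩ := Finset.mem_biUnion.mp hwz
    rw [Finset.mem_product] at h1
    simp only at he h1
    apply hF v hv z h1.2
    rw [← h.p_mem (hR hv), he]
    exact h1.1
  have hinj : Set.InjOn (fun wz : V × V => Function.update p wz.2 wz.1) (P : Set (V × V)) := by
    rintro ⟨w, z⟩ h1 ⟨w', z'⟩ h2 he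
    have g1 := hne _ h1
    have g2 := hne _ h2
    simp only at he g1 g2
    have e1 := congrFun he z
    rw [Function.update_self] at e1
    by_cases hz : z = z'
    · subst hz
      rw [Function.update_self] at e1
      rw [e1]
    · rw [Function.update_of_ne hz] at e1
      exact absurd e1.symm g1
  calc R.card * s * m = R.card * (s * m) := by ring
    _ ≤ P.card := hP
    _ = (P.image (fun wz : V × V => Function.update p wz.2 wz.1)).card :=
        (Finset.card_image_of_injOn hinj).symm
    _ ≤ Q.card := by
        apply Finset.card_le_card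
        intro q hq
        obtain ⟨⟨w, z⟩, hwz, rfl⟩ := Finset.mem_image.mp hq
        obtain ⟨v, hv, h1⟩ := Finset.mem_biUnion.mp hwz
        rw [Finset.mem_product] at h1
        exact hQ v hv w h1.1 z h1.2

/-- few preimages -/
theorem bwd (p' : V → V) (A : Finset (V → V)) (Z : Finset V)
    (h : ∀ p ∈ A, ∃ z ∈ Z, ∃ w, p' = Function.update p z w) :
    A.card ≤ Z.card * Fintype.card V := by
  have h1 : A ⊆ (Z ×ˢ (univ : Finset V)).image (fun zy => Function.update p' zy.1 zy.2) := by
    intro p hp
    obtain ⟨z, hz, w, rfl⟩ := h p hp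
    rw [Finset.mem_image]
    exact ⟨(z, p z), Finset.mem_product.mpr ⟨hz, mem_univ _⟩, update_update_self p z w⟩
  refine (Finset.card_le_card h1).trans (Finset.card_image_le.trans ?_)
  rw [Finset.card_product, Finset.card_univ]

/-- the vertices in the trees of size `s` -/
theorem trees_card (C : Finset V) (p : V → V) (s : ℕ) :
    ((C.filter (fun v => (L p v).card = s)).biUnion (fun v => L p v)).card ≤ N C p s * s := by
  refine Finset.card_biUnion_le.trans ?_
  calc ∑ v ∈ C.filter (fun v => (L p v).card = s), (L p v).card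
      = ∑ v ∈ C.filter (fun v => (L p v).card = s), s :=
        Finset.sum_congr rfl (fun v hv => (mem_filter.mp hv).2)
    _ = N C p s * s := by rw [sum_const, smul_eq_mul]; rfl
    _ ≤ N C p s * s := le_rfl

theorem N_zero {C : Finset V} {p : V → V} {s : ℕ} (h : N C p s = 0) {v : V} (hv : v ∈ C) :
    (L p v).card ≠ s := by
  intro he
  rw [N, Finset.card_eq_zero] at h
  have : v ∈ C.filter (fun v => (L p v).card = s) := mem_filter.mpr ⟨hv, he⟩
  rw [h] at this
  exact absurd this (Finset.notMem_empty _)

/-- leaves outside a tree -/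
theorem leaves_out {C : Finset V} {p : V → V} {v : V} (hv : v ∈ C) {a s : ℕ}
    (ha : a ≤ (leaves C p).card) (hs : (L p v).card = s) :
    a + 1 ≤ ((leaves C p).filter (fun z => z ∉ L p v)).card + s := by
  have h1 := IsRF.leaves_inter (C := C) (p := p) hv
  have h2 := Finset.card_filter_add_card_filter_not (s := leaves C p) (fun z => z ∈ L p v)
  omega

/-- the relation of Lemma A -/
def RA (C : Finset V) (M : ℕ) (p p' : V → V) : Prop :=
  ∃ v ∈ C, ∃ w z, (L p v).card = M ∧ w ∈ L p v ∧ Leaf C p z ∧ z ∉ L p v ∧
    p' = Function.update p z w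

/-- the relation of Lemma B -/
def RB (C : Finset V) (M : ℕ) (p p' : V → V) : Prop :=
  ∃ v ∈ C, ∃ w z, (L p v).card = M - 1 ∧ w ∈ L p v ∧ Leaf C p z ∧ z ∉ L p v ∧
    (∀ x ∈ C, (L p x).card = M → z ∉ L p x) ∧ p' = Function.update p z w

theorem lemA : StA := by
  intro V _ C a M ν hM
  rw [mul_comm (2 * (M + 1)) (Fintype.card V)]
  refine double_count _ (RF C) (RA C M) _ _ ?_ ?_
  · intro p hp
    rw [mem_filter, mem_RF] at hp
    obtain ⟨hp, ha, h0, hν⟩ := hp
    have h1 := fwd hp (C.filter (fun v => (L p v).card = M)) (filter_subset _ _) M (a - M)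
      (fun v hv => (mem_filter.mp hv).2) (fun v => (leaves C p).filter (fun z => z ∉ L p v))
      (fun v _ z hz => (mem_filter.mp hz).2)
      (fun v hv => by
        have := leaves_out (mem_filter.mp hv).1 ha (mem_filter.mp hv).2
        omega)
      ((RF C).filter (fun p' => RA C M p p'))
      (fun v hv w hw z hz => by
        rw [mem_filter] at hv hz
        rw [mem_leaves] at hz
        have hwz : w ≠ z := fun he => hz.2 (he ▸ hw)
        rw [mem_filter, mem_RF]
        exact ⟨leaf_move hp hz.1 hwz, v, hv.1, w, z, hv.2, hw, hz.1, hz.2, rfl⟩)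
    refine le_trans ?_ h1
    exact Nat.mul_le_mul_right _ (Nat.mul_le_mul_right _ hν)
  · intro p' hp'
    set A := (((RF C).filter (fun p => a ≤ (leaves C p).card ∧ N C p (M + 1) = 0 ∧
      ν ≤ N C p M))).filter (fun p => RA C M p p') with hA
    by_cases hne : A.Nonempty
    · have hN2 : N C p' (M + 1) ≤ 2 := by
        obtain ⟨p, hp⟩ := hne
        rw [hA, mem_filter, mem_filter, mem_RF] at hp
        obtain ⟨⟨hp, ha, h0, hν⟩, v, hv, w, z, hc, hw, hz, hzv, rfl⟩ := hp
        have hwz : w ≠ z := fun he => hzv (he ▸ hw)
        obtain ⟨x0, hx0, hzx0⟩ := hp.exists_root z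
        have hsub : C.filter (fun x => (L (Function.update p z w) x).card = M + 1) ⊆ {v, x0} := by
          intro x hx
          rw [mem_filter] at hx
          rw [mem_insert, mem_singleton]
          by_contra hcon
          push Not at hcon
          have e1 : w ∉ L p x := fun hwx => hcon.1 (hp.root_unique hx.1 hv hwx hw)
          have e2 : z ∉ L p x := fun hzx => hcon.2 (hp.root_unique hx.1 hx0 hzx hzx0)
          rw [L_move_same hz hwz hx.1 e1 e2] at hx
          exact N_zero h0 hx.1 hx.2
        exact (Finset.card_le_card hsub).trans Finset.card_le_two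
      have hb := bwd p' A ((C.filter (fun v => (L p' v).card = M + 1)).biUnion (fun v => L p' v))
        (by
          intro p hp
          rw [hA, mem_filter, mem_filter, mem_RF] at hp
          obtain ⟨⟨hp, ha, h0, hν⟩, v, hv, w, z, hc, hw, hz, hzv, rfl⟩ := hp
          have hwz : w ≠ z := fun he => hzv (he ▸ hw)
          refine ⟨z, ?_, w, rfl⟩
          rw [mem_biUnion]
          refine ⟨v, ?_, ?_⟩
          · rw [mem_filter]
            refine ⟨hv, ?_⟩
            rw [L_move_of_mem hz hwz hv hw, card_insert_of_notMem hzv, hc]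
          · rw [L_move_of_mem hz hwz hv hw]
            exact mem_insert_self _ _)
      refine hb.trans ?_
      rw [mul_comm (Fintype.card V)]
      refine Nat.mul_le_mul_right _ ((trees_card C p' (M + 1)).trans ?_)
      exact Nat.mul_le_mul_right _ hN2
    · rw [Finset.not_nonempty_iff_eq_empty] at hne
      rw [hne, Finset.card_empty]
      exact Nat.zero_le _

theorem lemB : StB := by
  intro V _ C a M ν b hM
  refine double_count _ (RF C) (RB C M) _ _ ?_ ?_
  · intro p hp
    rw [mem_filter, mem_RF] at hp
    obtain ⟨hp, ha, h0, hb, hν⟩ := hp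
    have h1 := fwd hp (C.filter (fun v => (L p v).card = M - 1)) (filter_subset _ _) (M - 1)
      (a - M - M * b) (fun v hv => (mem_filter.mp hv).2)
      (fun v => ((leaves C p).filter (fun z => z ∉ L p v)) \
        ((C.filter (fun v => (L p v).card = M)).biUnion (fun v => L p v)))
      (fun v _ z hz => (mem_filter.mp (mem_sdiff.mp hz).1).2)
      (fun v hv => by
        have h2 := leaves_out (mem_filter.mp hv).1 ha (mem_filter.mp hv).2
        have h3 := Finset.le_card_sdiff
          ((C.filter (fun v => (L p v).card = M)).biUnion (fun v => L p v))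
          ((leaves C p).filter (fun z => z ∉ L p v))
        have h4 := trees_card C p M
        have h5 : N C p M * M ≤ b * M := Nat.mul_le_mul_right _ hb.le
        have h6 : b * M = M * b := mul_comm _ _
        omega)
      ((RF C).filter (fun p' => RB C M p p'))
      (fun v hv w hw z hz => by
        rw [mem_sdiff] at hz
        obtain ⟨hz, hzM⟩ := hz
        rw [mem_filter] at hv hz
        rw [mem_leaves] at hz
        have hwz : w ≠ z := fun he => hz.2 (he ▸ hw)
        rw [mem_filter, mem_RF]
        refine ⟨leaf_move hp hz.1 hwz, v, hv.1, w, z, hv.2, hw, hz.1, hz.2, ?_, rfl⟩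
        intro x hx hxM hzx
        exact hzM (mem_biUnion.mpr ⟨x, mem_filter.mpr ⟨hx, hxM⟩, hzx⟩))
    refine le_trans ?_ h1
    exact Nat.mul_le_mul_right _ (Nat.mul_le_mul_right _ hν)
  · intro p' hp'
    set A := (((RF C).filter (fun p => a ≤ (leaves C p).card ∧ N C p (M + 1) = 0 ∧
      N C p M < b ∧ ν ≤ N C p (M - 1)))).filter (fun p => RB C M p p') with hA
    by_cases hne : A.Nonempty
    · have hN2 : N C p' M ≤ b := by
        obtain ⟨p, hp⟩ := hne
        rw [hA, mem_filter, mem_filter, mem_RF] at hp
        obtain ⟨⟨hp, ha, h0, hb, hν⟩, v, hv, w, z, hc, hw, hz, hzv, hzM, rfl⟩ := hp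
        have hwz : w ≠ z := fun he => hzv (he ▸ hw)
        have hsub : C.filter (fun x => (L (Function.update p z w) x).card = M) ⊆
            insert v (C.filter (fun x => (L p x).card = M)) := by
          intro x hx
          rw [mem_filter] at hx
          rw [mem_insert, mem_filter]
          by_cases hxv : x = v
          · exact Or.inl hxv
          right
          have e1 : w ∉ L p x := fun hwx => hxv (hp.root_unique hx.1 hv hwx hw)
          by_cases e2 : z ∈ L p x
          · exfalso
            rw [L_move_of_notMem hz hwz hx.1 e1, card_erase_of_mem e2] at hx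
            have h3 : 0 < (L p x).card := Finset.card_pos.mpr ⟨z, e2⟩
            exact N_zero h0 hx.1 (by omega)
          · rw [L_move_same hz hwz hx.1 e1 e2] at hx
            exact hx
        have h4 := (Finset.card_le_card hsub).trans (Finset.card_insert_le _ _)
        have h5 : (C.filter (fun x => (L p x).card = M)).card < b := hb
        have h6 : N C (Function.update p z w) M =
          (C.filter (fun x => (L (Function.update p z w) x).card = M)).card := rfl
        omega
      have hbb := bwd p' A ((C.filter (fun v => (L p' v).card = M)).biUnion (fun v => L p' v))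
        (by
          intro p hp
          rw [hA, mem_filter, mem_filter, mem_RF] at hp
          obtain ⟨⟨hp, ha, h0, hb, hν⟩, v, hv, w, z, hc, hw, hz, hzv, hzM, rfl⟩ := hp
          have hwz : w ≠ z := fun he => hzv (he ▸ hw)
          refine ⟨z, ?_, w, rfl⟩
          rw [mem_biUnion]
          refine ⟨v, ?_, ?_⟩
          · rw [mem_filter]
            refine ⟨hv, ?_⟩
            rw [L_move_of_mem hz hwz hv hw, card_insert_of_notMem hzv, hc]
            omega
          · rw [L_move_of_mem hz hwz hv hw]
            exact mem_insert_self _ _)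
      refine hbb.trans ?_
      refine Nat.mul_le_mul_right _ ((trees_card C p' M).trans ?_)
      exact Nat.mul_le_mul_right _ hN2
    · rw [Finset.not_nonempty_iff_eq_empty] at hne
      rw [hne, Finset.card_empty]
      exact Nat.zero_le _

end Pool.Agent.N897.RF
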