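import Pool.Agent.N502.FR.Stm

/-!
# Project FR (helper502), part CLS (helper897): leaves with the same code are balanced
-/

set_option autoImplicit false

open Finset MeasureTheory

namespace Pool.Agent.N897.FR.CLS

open Pool.Agent.N502.FR

theorem sum_split {A s F H : Finset ℕ} (hH : H = A ∪ s) (hd : Disjoint A s)
    (hF : ∀ a ∈ s, a ∉ F) (g : ℕ → ℝ) : ∑ h ∈ H \ F, g h = ∑ h ∈ A \ F, g h + ∑ h ∈ s, g h := by
  rw [hH, union_sdiff_distrib]
  have h1 : s \ F = s := by
    rw [Finset.sdiff_eq_self_iff_disjoint]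
    exact disjoint_left.2 hF
  rw [h1, sum_union]
  exact disjoint_of_subset_left sdiff_subset hd

theorem main : Pool.Agent.N502.FR.S_CLS := by
  intro PTH TRN MNS HOO NNK PRB INT STP BAS RAC ATN SQS SML LRG KEY P _ _ hP m hm x y hx hy hxy
    htr hmom
  obtain ⟨hRace, hAA⟩ := RAC INT STP BAS
  obtain ⟨-, hpos, hHH, hlt, h1, -, -⟩ := PTH P hP
  have hnxy : ¬ x ≤ y := fun h => hxy (hx y h).symm
  have hnyx : ¬ y ≤ x := fun h => hxy (hy x h)
  rw [PRB MNS HOO NNK KK hRace P hP x y hnxy hnyx]
  have hsh : sh y x = sh x y := by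
    unfold sh
    congr 1
    ext u
    simp only [mem_filter, mem_univ, true_and]
    exact and_comm
  have HA := (hpos x y).1
  have HB := (hpos y x).1
  obtain ⟨t1, t2, -, -, t5, t6, -, t8, t9⟩ := TRN m (HH x) hm (hpos x y).2 (h1 x hx).1
  obtain ⟨-, u2, -, -, u5, -, -, u8, -⟩ := TRN m (HH y) hm (hpos y x).2 (h1 y hy).1
  obtain ⟨a1, a2⟩ := hHH x y
  obtain ⟨b1, b2⟩ := hHH y x
  have hl1 := hlt x y
  have hl2 := hlt y x
  rw [hsh] at b1 b2 hl2
  unfold mom at hmom
  rw [← htr] at u2 u5 u8 hmom
  obtain ⟨F, hF⟩ : ∃ F, F = trn m (HH x) := ⟨_, rfl⟩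
  rw [← hF] at t1 t2 t5 t6 t8 t9 u2 u5 u8 hmom
  by_cases hc : ∃ s ∈ sh x y, s ∈ F
  · obtain ⟨s, hs, hsF⟩ := hc
    have hA : ux x y = F \ sh x y := by
      ext a
      rw [mem_sdiff]
      constructor
      · intro ha
        have h2 := hl1 a ha s hs
        have h3 : a ∈ HH x := by
          rw [a1]
          exact mem_union_left _ ha
        exact ⟨t5 a h3 s hsF h2.le, fun h => disjoint_left.1 a2 ha h⟩
      · rintro ⟨ha, ha2⟩
        have h3 := t2 ha
        rw [a1, mem_union] at h3
        tauto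
    have hB : ux y x = F \ sh x y := by
      ext a
      rw [mem_sdiff]
      constructor
      · intro ha
        have h2 := hl2 a ha s hs
        have h3 : a ∈ HH y := by
          rw [b1]
          exact mem_union_left _ ha
        exact ⟨u5 a h3 s hsF h2.le, fun h => disjoint_left.1 b2 ha h⟩
      · rintro ⟨ha, ha2⟩
        have h3 := u2 ha
        rw [b1, mem_union] at h3
        tauto
    rw [hA, hB, hAA, sub_self, abs_zero]
    positivity
  · push Not at hc
    have hFA : F ⊆ ux x y := by
      intro a ha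
      have h3 := t2 ha
      rw [a1, mem_union] at h3
      rcases h3 with h3 | h3
      · exact h3
      · exact absurd ha (hc a h3)
    have hFB : F ⊆ ux y x := by
      intro a ha
      have h3 := u2 ha
      rw [b1, mem_union] at h3
      rcases h3 with h3 | h3
      · exact h3
      · exact absurd ha (hc a h3)
    refine KEY ATN SQS SML LRG m F (ux x y) (ux y x) (rad m F) hm hFA hFB t1 HA HB t6 ?_ ?_ t9 ?_
    · intro h hh
      apply t8
      rw [mem_sdiff] at hh ⊢
      refine ⟨?_, hh.2⟩
      rw [a1]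
      exact mem_union_left _ hh.1
    · intro h hh
      apply u8
      rw [mem_sdiff] at hh ⊢
      refine ⟨?_, hh.2⟩
      rw [b1]
      exact mem_union_left _ hh.1
    · intro j hj
      have h4 := hmom j hj
      rw [sum_split a1 a2 hc, sum_split b1 b2 hc, ← mul_sub, abs_mul,
        abs_of_nonneg (pow_nonneg (by linarith) _), add_sub_add_right_eq_sub] at h4
      exact h4

end Pool.Agent.N897.FR.CLS
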