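import Pool.Agent.N652.OM.Stm2
import Pool.Agent.Helper436.SN.K2
import Pool.Agent.Helper436.SN.LKPG
import Pool.Agent.Helper436.SN.Bridge

/-!
# Project OM, part NG (helper897): a spectral gap implies icc and the negation of Gamma
-/

set_option autoImplicit false

open scoped InnerProductSpace Topology
open Filter

namespace Pool.Agent.N897.OMNG

open Pool.Agent.Helper278 Pool.Agent.Helper278.CE Pool.Agent.Helper436.SM Pool.Agent.Helper278.RG
open Pool.Agent.Helper436.SN
open Pool.Agent.N652.OM (ConjGap S_NG)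

variable {G : Type} [Group G]

/-- Conjugacy classes are infinite. -/
theorem icc_of_gap (hgap : ConjGap G) (g : G) (hg : g ≠ 1) :
    (Set.range fun h : G => h * g * h⁻¹).Infinite := by
  intro hfin
  obtain ⟨E, C, hC, hab⟩ := hgap
  classical
  set S : Set G := Set.range fun h : G => h * g * h⁻¹ with hS
  have hmem : Memℓp (fun h : G => if h ∈ S then (1:ℂ) else 0) 2 := by
    refine memℓp_gen ?_
    refine summable_of_hasFiniteSupport (hfin.subset ?_)
    intro h hh
    by_contra hn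
    apply hh
    simp [hn]
  let f : EllTwo G := ⟨fun h : G => if h ∈ S then (1:ℂ) else 0, hmem⟩
  have hfa : ∀ h : G, f h = if h ∈ S then (1:ℂ) else 0 := fun h => rfl
  have hinv : ∀ k : G, permOp (MulAut.conj k).toEquiv f = f := by
    intro k
    ext h
    rw [permOp_apply, hfa, hfa]
    have e0 : (MulAut.conj k).toEquiv h = k * h * k⁻¹ := rfl
    rw [e0]
    have e1 : k * h * k⁻¹ ∈ S ↔ h ∈ S := by
      constructor
      · rintro ⟨l, hl⟩
        refine ⟨k⁻¹ * l, ?_⟩
        have hl' : l * g * l⁻¹ = k * h * k⁻¹ := hl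
        show k⁻¹ * l * g * (k⁻¹ * l)⁻¹ = h
        have : k⁻¹ * l * g * (k⁻¹ * l)⁻¹ = k⁻¹ * (l * g * l⁻¹) * k := by group
        rw [this, hl']
        group
      · rintro ⟨l, hl⟩
        refine ⟨k * l, ?_⟩
        have hl' : l * g * l⁻¹ = h := hl
        show k * l * g * (k * l)⁻¹ = k * h * k⁻¹
        rw [← hl']
        group
    simp only [e1]
  have h1 : f 1 = 0 := by
    rw [hfa, if_neg]
    rintro ⟨l, hl⟩
    have hl' : l * g * l⁻¹ = 1 := hl
    exact hg (conj_eq_one_iff.1 hl')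
  have h2 : ‖f‖ ≤ C * 0 := by
    refine hab f h1 0 ?_
    intro k _
    rw [hinv, sub_self, norm_zero]
  have h3 : f = 0 := by
    rw [← norm_le_zero_iff]
    linarith
  have h4 : f g = 1 := by
    rw [hfa, if_pos]
    exact ⟨1, by simp⟩
  rw [h3] at h4
  have h5 : ((0 : EllTwo G) g : ℂ) = 0 := rfl
  rw [h5] at h4
  exact zero_ne_one h4

/-- `L(G)` does not have Gamma. -/
theorem not_gamma_of_gap (hgap : ConjGap G)
    {A : Type} [Ring A] [StarRing A] [Algebra ℂ A] [StarModule ℂ A]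
    {τ : A →ₗ[ℂ] ℂ} {u : G →* A} (h : PG τ u) : ¬ HasGamma (fun x => τ x) := by
  rintro ⟨w, hw1, hw2, hw3⟩
  obtain ⟨E, C, hC, hab⟩ := hgap
  have hone : ∀ n, n2 τ (w n) = 1 := fun n => by
    unfold n2
    rw [(Unitary.mem_iff.1 (hw1 n)).1, h.tr.one]
    simp
  have h0 : ∀ n, icc_aux_hat h (w n) 1 = 0 := by
    intro n
    rw [icc_aux_hat_apply, map_one, star_one, one_mul]
    exact hw2 n
  have key : ∀ n, 1 ≤ C * ∑ g ∈ E, n2 τ (w n * u g - u g * w n) := by
    intro n
    rw [← hone n, ← icc_aux_norm_hat h]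
    refine hab _ (h0 n) _ ?_
    intro g hg
    rw [← icc_aux_comm, h.tr.n2_sub_comm]
    exact Finset.single_le_sum (f := fun g => n2 τ (w n * u g - u g * w n))
      (fun i _ => n2_nonneg τ _) hg
  have l1 : Tendsto (fun n => C * ∑ g ∈ E, n2 τ (w n * u g - u g * w n)) atTop
      (𝓝 (C * ∑ g ∈ E, (0 : ℝ))) := by
    refine Tendsto.const_mul C (tendsto_finset_sum E fun g _ => ?_)
    exact hw3 (u g)
  have l2 := ge_of_tendsto' l1 key
  norm_num at l2

/-- **NG** -/
theorem main : S_NG := by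
  intro Γ _ _ hgap
  refine ⟨⟨?_, icc_of_gap hgap⟩, ?_⟩
  · by_contra hfin
    rw [not_infinite_iff_finite] at hfin
    obtain ⟨g, hg⟩ := exists_ne (1 : Γ)
    exact icc_of_gap hgap g hg (Set.toFinite _)
  · refine transport Γ (fun N τ => ¬ HasGamma τ) ?_
    exact not_gamma_of_gap hgap (pg_LK (sb Γ))

end Pool.Agent.N897.OMNG
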