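import Pool.Agent.N988.ED.Stm
import Pool.Agent.N271.EA_G

/-!
# Project ED (helper988), part BOT (helper897): bottleneck bound for the mixing time
-/

set_option autoImplicit false

open MeasureTheory Set Filter
open scoped ENNReal Topology
open Pool.Agent.N988.EA Pool.Agent.N988.ED

namespace Pool.Agent.N897.ED

section chain

variable {S : Type} [Fintype S] [DecidableEq S] {q : S → ℝ} {M : Matrix S S ℝ}

theorem pow_nonneg' (hM : ∀ σ s, 0 ≤ M σ s) (t : ℕ) (σ s : S) : 0 ≤ (M ^ t) σ s := by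
  induction t generalizing s with
  | zero =>
    rw [pow_zero, Matrix.one_apply]
    split_ifs <;> norm_num
  | succ t ih =>
    rw [pow_succ, Matrix.mul_apply]
    exact Finset.sum_nonneg fun r _ => mul_nonneg (ih r) (hM r s)

theorem pow_total (hM : ∀ σ, ∑ s, M σ s = 1) (t : ℕ) (σ : S) : ∑ s, (M ^ t) σ s = 1 := by
  induction t with
  | zero =>
    simp only [pow_zero, Matrix.one_apply, Finset.sum_ite_eq, Finset.mem_univ, if_true]
  | succ t ih =>
    simp only [pow_succ, Matrix.mul_apply]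
    rw [Finset.sum_comm]
    simp only [← Finset.mul_sum, hM, mul_one]
    exact ih

theorem pow_stat (hM : ∀ σ, ∑ s, M σ s = 1) (hr : ∀ σ s, q σ * M σ s = q s * M s σ) (t : ℕ) (s : S) :
    ∑ σ, q σ * (M ^ t) σ s = q s := by
  induction t generalizing s with
  | zero =>
    simp only [pow_zero, Matrix.one_apply, mul_ite, mul_one, mul_zero, Finset.sum_ite_eq',
      Finset.mem_univ, if_true]
  | succ t ih =>
    simp only [pow_succ, Matrix.mul_apply, Finset.mul_sum]
    rw [Finset.sum_comm]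
    have h1 : ∀ r ∈ (Finset.univ : Finset S), ∑ σ, q σ * ((M ^ t) σ r * M r s) = q s * M s r := by
      intro r _
      rw [← hr r s, ← ih r, Finset.sum_mul]
      exact Finset.sum_congr rfl fun σ _ => by ring
    rw [Finset.sum_congr rfl h1, ← Finset.mul_sum, hM, mul_one]

theorem flow (hq : ∀ σ, 0 ≤ q σ) (hM0 : ∀ σ s, 0 ≤ M σ s) (hM : ∀ σ, ∑ s, M σ s = 1)
    (hr : ∀ σ s, q σ * M σ s = q s * M s σ) (A : Finset S) (t : ℕ) :
    ∑ σ ∈ A, ∑ s ∈ Aᶜ, q σ * (M ^ t) σ s ≤ t * ∑ σ ∈ A, ∑ s ∈ Aᶜ, q σ * M σ s := by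
  induction t with
  | zero =>
    rw [Nat.cast_zero, zero_mul]
    apply le_of_eq
    refine Finset.sum_eq_zero fun σ hσ => Finset.sum_eq_zero fun s hs => ?_
    rw [pow_zero, Matrix.one_apply, if_neg, mul_zero]
    rintro rfl
    exact (Finset.mem_compl.1 hs) hσ
  | succ t ih =>
    have h1 : ∑ σ ∈ A, ∑ s ∈ Aᶜ, q σ * (M ^ (t + 1)) σ s =
        ∑ σ ∈ A, ∑ s ∈ Aᶜ, ∑ r ∈ A, q σ * ((M ^ t) σ r * M r s) +
        ∑ σ ∈ A, ∑ s ∈ Aᶜ, ∑ r ∈ Aᶜ, q σ * ((M ^ t) σ r * M r s) := by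
      rw [← Finset.sum_add_distrib]
      refine Finset.sum_congr rfl fun σ _ => ?_
      rw [← Finset.sum_add_distrib]
      refine Finset.sum_congr rfl fun s _ => ?_
      rw [pow_succ, Matrix.mul_apply, Finset.mul_sum, Finset.sum_add_sum_compl]
    have h2 : ∑ σ ∈ A, ∑ s ∈ Aᶜ, ∑ r ∈ A, q σ * ((M ^ t) σ r * M r s) ≤
        ∑ σ ∈ A, ∑ s ∈ Aᶜ, q σ * M σ s := by
      have e1 : ∑ σ ∈ A, ∑ s ∈ Aᶜ, ∑ r ∈ A, q σ * ((M ^ t) σ r * M r s) =
          ∑ r ∈ A, ∑ s ∈ Aᶜ, (∑ σ ∈ A, q σ * (M ^ t) σ r) * M r s := by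
        calc _ = ∑ σ ∈ A, ∑ r ∈ A, ∑ s ∈ Aᶜ, q σ * ((M ^ t) σ r * M r s) :=
              Finset.sum_congr rfl fun σ _ => Finset.sum_comm
          _ = ∑ r ∈ A, ∑ σ ∈ A, ∑ s ∈ Aᶜ, q σ * ((M ^ t) σ r * M r s) := Finset.sum_comm
          _ = ∑ r ∈ A, ∑ s ∈ Aᶜ, ∑ σ ∈ A, q σ * ((M ^ t) σ r * M r s) :=
              Finset.sum_congr rfl fun r _ => Finset.sum_comm
          _ = _ := by
              refine Finset.sum_congr rfl fun r _ => Finset.sum_congr rfl fun s _ => ?_
              rw [Finset.sum_mul]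
              exact Finset.sum_congr rfl fun σ _ => by ring
      rw [e1]
      refine Finset.sum_le_sum fun r _ => Finset.sum_le_sum fun s _ => ?_
      refine mul_le_mul_of_nonneg_right ?_ (hM0 r s)
      rw [← pow_stat hM hr t r]
      exact Finset.sum_le_univ_sum_of_nonneg fun σ => mul_nonneg (hq σ) (pow_nonneg' hM0 t σ r)
    have h3 : ∑ σ ∈ A, ∑ s ∈ Aᶜ, ∑ r ∈ Aᶜ, q σ * ((M ^ t) σ r * M r s) ≤
        ∑ σ ∈ A, ∑ r ∈ Aᶜ, q σ * (M ^ t) σ r := by
      refine Finset.sum_le_sum fun σ _ => ?_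
      rw [Finset.sum_comm]
      refine Finset.sum_le_sum fun r _ => ?_
      have e2 : ∑ s ∈ Aᶜ, q σ * ((M ^ t) σ r * M r s) = (q σ * (M ^ t) σ r) * ∑ s ∈ Aᶜ, M r s := by
        rw [Finset.mul_sum]
        exact Finset.sum_congr rfl fun s _ => by ring
      rw [e2]
      refine mul_le_of_le_one_right (mul_nonneg (hq σ) (pow_nonneg' hM0 t σ r)) ?_
      rw [← hM r]
      exact Finset.sum_le_univ_sum_of_nonneg fun s => hM0 r s
    rw [h1]
    push_cast
    linarith

theorem mix (hq : ∀ σ, 0 ≤ q σ) (hq1 : ∑ σ, q σ = 1) (hM : ∀ σ, ∑ s, M σ s = 1)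
    (A : Finset S) (t : ℕ) (hmix : ∀ σ, (∑ s, |(M ^ t) σ s - q s|) / 2 ≤ 1 / 4) :
    (∑ σ ∈ A, q σ) * (∑ s ∈ Aᶜ, q s - 1 / 4) ≤ ∑ σ ∈ A, ∑ s ∈ Aᶜ, q σ * (M ^ t) σ s := by
  rw [Finset.sum_mul]
  refine Finset.sum_le_sum fun σ _ => ?_
  rw [← Finset.mul_sum]
  refine mul_le_mul_of_nonneg_left ?_ (hq σ)
  have h1 := hmix σ
  have h2 : ∑ s, ((M ^ t) σ s - q s) = 0 := by
    rw [Finset.sum_sub_distrib, pow_total hM, hq1, sub_self]
  rw [← Finset.sum_add_sum_compl A] at h1 h2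
  have h3 : ∑ s ∈ A, ((M ^ t) σ s - q s) ≤ ∑ s ∈ A, |(M ^ t) σ s - q s| :=
    Finset.sum_le_sum fun s _ => le_abs_self _
  have h4 : -∑ s ∈ Aᶜ, ((M ^ t) σ s - q s) ≤ ∑ s ∈ Aᶜ, |(M ^ t) σ s - q s| := by
    rw [← Finset.sum_neg_distrib]
    exact Finset.sum_le_sum fun s _ => neg_le_abs _
  have h5 : ∑ s ∈ Aᶜ, ((M ^ t) σ s - q s) = ∑ s ∈ Aᶜ, (M ^ t) σ s - ∑ s ∈ Aᶜ, q s :=
    Finset.sum_sub_distrib _ _
  linarith

/-- the flow is at most the mass of a set which meets all transitions -/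
theorem cutset (hq : ∀ σ, 0 ≤ q σ) (hM0 : ∀ σ s, 0 ≤ M σ s) (hM : ∀ σ, ∑ s, M σ s = 1)
    (hr : ∀ σ s, q σ * M σ s = q s * M s σ) (A U : Finset S)
    (hU : ∀ σ ∈ A, ∀ s ∈ Aᶜ, M σ s ≠ 0 → σ ∈ U ∨ s ∈ U) :
    ∑ σ ∈ A, ∑ s ∈ Aᶜ, q σ * M σ s ≤ ∑ σ ∈ U, q σ := by
  have h1 : ∑ σ ∈ A, ∑ s ∈ Aᶜ, q σ * M σ s ≤
      ∑ σ ∈ A, ∑ s ∈ Aᶜ, ((if σ ∈ U then q σ * M σ s else 0) + (if s ∈ U then q s * M s σ else 0)) := by
    refine Finset.sum_le_sum fun σ hσ => Finset.sum_le_sum fun s hs => ?_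
    have n1 : 0 ≤ q σ * M σ s := mul_nonneg (hq σ) (hM0 σ s)
    have n2 : 0 ≤ q s * M s σ := mul_nonneg (hq s) (hM0 s σ)
    by_cases h0 : M σ s = 0
    · rw [h0, mul_zero]
      split_ifs <;> simp [n2]
    · rcases hU σ hσ s hs h0 with h | h
      · rw [if_pos h]
        split_ifs <;> linarith
      · rw [if_pos h, ← hr]
        split_ifs <;> linarith
  have h2 : ∑ σ ∈ A, ∑ s ∈ Aᶜ, (if σ ∈ U then q σ * M σ s else 0) ≤
      ∑ σ ∈ A, (if σ ∈ U then q σ else 0) := by
    refine Finset.sum_le_sum fun σ _ => ?_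
    by_cases h : σ ∈ U
    · simp only [if_pos h]
      rw [← Finset.mul_sum]
      refine mul_le_of_le_one_right (hq σ) ?_
      rw [← hM σ]
      exact Finset.sum_le_univ_sum_of_nonneg fun s => hM0 σ s
    · simp only [if_neg h, Finset.sum_const_zero, le_refl]
  have h3 : ∑ σ ∈ A, ∑ s ∈ Aᶜ, (if s ∈ U then q s * M s σ else 0) ≤
      ∑ s ∈ Aᶜ, (if s ∈ U then q s else 0) := by
    rw [Finset.sum_comm]
    refine Finset.sum_le_sum fun s _ => ?_
    by_cases h : s ∈ U
    · simp only [if_pos h]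
      rw [← Finset.mul_sum]
      refine mul_le_of_le_one_right (hq s) ?_
      rw [← hM s]
      exact Finset.sum_le_univ_sum_of_nonneg fun σ => hM0 s σ
    · simp only [if_neg h, Finset.sum_const_zero, le_refl]
  have h4 : ∑ σ ∈ A, (if σ ∈ U then q σ else 0) + ∑ s ∈ Aᶜ, (if s ∈ U then q s else 0) =
      ∑ σ ∈ U, q σ := by
    rw [Finset.sum_add_sum_compl, ← Finset.sum_filter]
    congr 1
    ext σ
    simp
  simp only [Finset.sum_add_distrib] at h1
  linarith

end chain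

section weights

theorem wt_sum {b n : ℕ} (J : Edge b n → ℝ) (φ : (Bool → Bool) → ℝ) :
    ∑ s : Pt b n → Bool, φ (fun t => s (.inl t)) * wt J s = ∑ τ : Bool → Bool, φ τ * Z J τ := by
  rw [← (Equiv.sumArrowEquivProdArrow Bool (Vert b n) Bool).symm.sum_comp, Fintype.sum_prod_type]
  refine Finset.sum_congr rfl fun τ _ => ?_
  unfold Z
  rw [Finset.mul_sum]
  rfl

theorem sum_bb (f : (Bool → Bool) → ℝ) : ∑ τ : Bool → Bool, f τ =
    (f (fun t => if t then true else true) + f (fun t => if t then false else true)) +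
    (f (fun t => if t then true else false) + f (fun t => if t then false else false)) := by
  rw [← (Equiv.boolArrowEquivProd Bool).symm.sum_comp, Fintype.sum_prod_type]
  have h : ∀ x y : Bool, (Equiv.boolArrowEquivProd Bool).symm (x, y) = fun t => if t then y else x := by
    intro x y
    funext t
    cases t <;> rfl
  simp only [Fintype.sum_bool, h]

end weights

theorem t_BOT : Pool.Agent.N988.ED.S_BOT := by
  intro b n J M hD t hmix
  obtain ⟨C, hC, hZ⟩ := (Pool.Agent.N271.EA.t_G b).1 n J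
  obtain ⟨κ, hκ⟩ : ∃ κ : ℝ, κ = K n J := ⟨_, rfl⟩
  rw [← hκ] at hZ ⊢
  have hW : ∀ φ : (Bool → Bool) → ℝ, ∑ s : Pt b n → Bool, φ (fun t => s (.inl t)) * wt J s =
      C * ((φ (fun t => if t then true else true) * Real.exp κ +
        φ (fun t => if t then false else true) * Real.exp (-κ)) +
      (φ (fun t => if t then true else false) * Real.exp (-κ) +
        φ (fun t => if t then false else false) * Real.exp κ)) := by
    intro φ
    rw [wt_sum, sum_bb]
    simp only [hZ, sg]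
    norm_num
    ring
  obtain ⟨W, hWd⟩ : ∃ W : ℝ, W = ∑ s : Pt b n → Bool, wt J s := ⟨_, rfl⟩
  have hWe : W = C * (2 * Real.exp κ + 2 * Real.exp (-κ)) := by
    have := hW (fun _ => 1)
    simp only [one_mul] at this
    rw [hWd, this]
    ring
  have e1 := Real.exp_pos κ
  have e2 := Real.exp_pos (-κ)
  have hW0 : 0 < W := by
    rw [hWe]
    positivity
  have hgib : ∀ s : Pt b n → Bool, gib J s = wt J s / W := by
    intro s
    unfold gib
    rw [hWd]
  have hwt0 : ∀ s : Pt b n → Bool, 0 ≤ wt J s := fun s => (Real.exp_pos _).le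
  have hq0 : ∀ s : Pt b n → Bool, 0 ≤ gib J s := by
    intro s
    rw [hgib]
    exact div_nonneg (hwt0 s) hW0.le
  have hq1 : ∑ s : Pt b n → Bool, gib J s = 1 := by
    simp only [hgib]
    rw [← Finset.sum_div, ← hWd, div_self hW0.ne']
  -- the two halves
  obtain ⟨A, hA⟩ : ∃ A : Finset (Pt b n → Bool), A =
    Finset.univ.filter (fun s => s (.inl false) = true) := ⟨_, rfl⟩
  have hAm : ∀ s, s ∈ A ↔ s (.inl false) = true := by
    intro s
    rw [hA]
    simp
  have hAsum : ∑ s ∈ A, gib J s = 1 / 2 := by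
    rw [hA, Finset.sum_filter]
    have h1 : ∑ s : Pt b n → Bool, (if s (.inl false) = true then gib J s else 0) =
        (∑ s : Pt b n → Bool, (if s (.inl false) = true then (1 : ℝ) else 0) * wt J s) / W := by
      rw [Finset.sum_div]
      refine Finset.sum_congr rfl fun s _ => ?_
      rw [hgib, ite_mul, one_mul, zero_mul]
      by_cases h : s (.inl false) = true
      · rw [if_pos h, if_pos h]
      · rw [if_neg h, if_neg h, zero_div]
    have h2 : ∑ s : Pt b n → Bool, (if s (.inl false) = true then (1 : ℝ) else 0) * wt J s =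
        C * (Real.exp κ + Real.exp (-κ)) := by
      refine (hW (fun τ => if τ false = true then 1 else 0)).trans ?_
      simp
    rw [h1, h2, hWe]
    field_simp
  have hAc : ∑ s ∈ Aᶜ, gib J s = 1 / 2 := by
    have := Finset.sum_add_sum_compl A (fun s => gib J s)
    rw [hq1, hAsum] at this
    linarith
  obtain ⟨U, hU⟩ : ∃ U : Finset (Pt b n → Bool), U =
    Finset.univ.filter (fun s => κ * (sg (s (.inl false)) * sg (s (.inl true))) ≤ 0) := ⟨_, rfl⟩
  have hUsum : ∑ s ∈ U, gib J s ≤ Real.exp (-(2 * |κ|)) := by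
    rw [hU, Finset.sum_filter]
    have h1 : ∑ s : Pt b n → Bool, (if κ * (sg (s (.inl false)) * sg (s (.inl true))) ≤ 0 then
        gib J s else 0) =
        (∑ s : Pt b n → Bool, (if κ * (sg (s (.inl false)) * sg (s (.inl true))) ≤ 0 then
          (1 : ℝ) else 0) * wt J s) / W := by
      rw [Finset.sum_div]
      refine Finset.sum_congr rfl fun s _ => ?_
      rw [hgib, ite_mul, one_mul, zero_mul]
      by_cases h : κ * (sg (s (.inl false)) * sg (s (.inl true))) ≤ 0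
      · rw [if_pos h, if_pos h]
      · rw [if_neg h, if_neg h, zero_div]
    have h2 : ∑ s : Pt b n → Bool, (if κ * (sg (s (.inl false)) * sg (s (.inl true))) ≤ 0 then
          (1 : ℝ) else 0) * wt J s =
        C * (2 * ((if κ ≤ 0 then 1 else 0) * Real.exp κ) +
          2 * ((if -κ ≤ 0 then 1 else 0) * Real.exp (-κ))) := by
      refine (hW (fun τ => if κ * (sg (τ false) * sg (τ true)) ≤ 0 then 1 else 0)).trans ?_
      simp only [sg, if_true, Bool.false_eq_true, if_false, mul_one, mul_neg, neg_neg]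
      ring
    rw [h1, h2, hWe]
    rcases lt_trichotomy κ 0 with h | h | h
    · rw [abs_of_neg h, if_pos h.le, if_neg (by linarith)]
      rw [div_le_iff₀ (by positivity)]
      have h2 : Real.exp (-(2 * -κ)) * Real.exp (-κ) = Real.exp κ := by
        rw [← Real.exp_add]
        congr 1
        ring
      have h3 : 0 ≤ Real.exp (-(2 * -κ)) * Real.exp κ := by positivity
      have h4 : Real.exp (-(2 * -κ)) * (C * (2 * Real.exp κ + 2 * Real.exp (-κ))) =
          C * (2 * (Real.exp (-(2 * -κ)) * Real.exp κ) +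
            2 * (Real.exp (-(2 * -κ)) * Real.exp (-κ))) := by ring
      rw [h4, h2]
      apply mul_le_mul_of_nonneg_left _ hC.le
      linarith
    · rw [h]
      simp only [neg_zero, le_refl, if_true, one_mul, Real.exp_zero, abs_zero, mul_zero, mul_one]
      exact (div_self (by positivity)).le
    · rw [abs_of_pos h, if_neg (by linarith), if_pos (by linarith)]
      rw [div_le_iff₀ (by positivity)]
      have h2 : Real.exp (-(2 * κ)) * Real.exp κ = Real.exp (-κ) := by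
        rw [← Real.exp_add]
        congr 1
        ring
      have h3 : 0 ≤ Real.exp (-(2 * κ)) * Real.exp (-κ) := by positivity
      have h4 : Real.exp (-(2 * κ)) * (C * (2 * Real.exp κ + 2 * Real.exp (-κ))) =
          C * (2 * (Real.exp (-(2 * κ)) * Real.exp κ) +
            2 * (Real.exp (-(2 * κ)) * Real.exp (-κ))) := by ring
      rw [h4, h2]
      apply mul_le_mul_of_nonneg_left _ hC.le
      linarith
  have hcut : ∀ σ ∈ A, ∀ s ∈ Aᶜ, M σ s ≠ 0 → σ ∈ U ∨ s ∈ U := by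
    intro σ hσ s hs hMs
    rw [hAm] at hσ
    rw [Finset.mem_compl, hAm, Bool.not_eq_true] at hs
    have h1 : s (.inl true) = σ (.inl true) := by
      by_contra hne
      exact hMs (hD.ends σ s (by rw [hσ, hs]; simp) hne)
    rw [hU, Finset.mem_filter, Finset.mem_filter, hσ, hs, h1]
    simp only [Finset.mem_univ, true_and, sg, if_true, Bool.false_eq_true, if_false, one_mul, neg_mul,
      mul_neg, Left.neg_nonpos_iff]
    exact le_total _ _
  have f1 := mix hq0 hq1 hD.total A t hmix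
  have f2 := flow hq0 hD.nonneg hD.total hD.reversible A t
  have f3 := cutset hq0 hD.nonneg hD.total hD.reversible A U hcut
  rw [hAsum, hAc] at f1
  have f4 : (t : ℝ) * ∑ σ ∈ A, ∑ s ∈ Aᶜ, gib J σ * M σ s ≤ t * Real.exp (-(2 * |κ|)) :=
    mul_le_mul_of_nonneg_left (f3.trans hUsum) (Nat.cast_nonneg t)
  have f5 : 1 / 8 ≤ (t : ℝ) * Real.exp (-(2 * |κ|)) := by linarith
  have f6 : Real.exp (-(2 * |κ|)) * Real.exp (2 * |κ|) = 1 := by
    rw [← Real.exp_add, neg_add_cancel, Real.exp_zero]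
  have f7 := mul_le_mul_of_nonneg_right f5 (Real.exp_pos (2 * |κ|)).le
  rw [mul_assoc, f6, mul_one] at f7
  linarith

end Pool.Agent.N897.ED
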