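import Pool.Agent.N906.KG.Nt

set_option autoImplicit false

namespace Pool.Agent.N897.KG

open NumberField IsDedekindDomain Finset Filter Topology Pool.Agent.H691R3 Pool.Agent.W223.AK
open Pool.Agent.N906.KG

theorem trivk (K : Type) [Field K] [NumberField K] (h1 : S_SEQ0 K) (h2 : S_TEL K) :
    S_TRIVK K := by
  classical
  intro N hN
  obtain ⟨C, hC0, hC⟩ := h1 N hN
  refine ⟨C * 2 ^ N, by positivity, ?_⟩
  intro B H F hB hH hBH hF
  have hA := hC (Equiv.refl _) (fun _ => 0) 0 (fun _ => 0) B F hB (fun v => Or.inl rfl) (by
    intro x hx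
    obtain ⟨hx1, hx2⟩ := hF x hx
    refine ⟨hx1, ?_, ?_, hx2⟩
    · intro k v
      simpa using fv_int_le_one v (x k)
    · intro k v
      simpa using fv_int_le_one v (x k))
  have hlj : ∀ j : Fin N, lj (fun _ => (0 : Idl K)) (Equiv.refl (Fin (N + 1))) j = 0 := by
    intro j
    have : sp (fun _ : Fin (N + 1) => (0 : Idl K)) = ∅ := by
      unfold sp
      rw [Finset.eq_empty_iff_forall_notMem]
      intro v hv
      simp at hv
    unfold lj
    rw [this]
    simp
  have hlen : len (0 : Idl K) = 0 := by simp [len]
  simp only [hlj, hlen, neg_zero, sub_zero, Real.exp_zero, mul_one] at hA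
  have htel := (h2 N (Equiv.refl _) hN).1 B hB
  have hiSup : ∀ (k : Fin (N + 1)) (w : InfinitePlace K), B k w ≤ ⨆ k, B k w := fun k w =>
    le_ciSup (f := fun k => B k w) (Set.finite_range _).bddAbove k
  have hR0 : ∀ j : Fin N, 0 ≤ Rj B (Equiv.refl (Fin (N + 1))) j := by
    intro j
    unfold Rj bn
    apply Finset.prod_nonneg
    intro w _
    apply pow_nonneg
    apply le_min (hB _ _).le
    exact Real.iSup_nonneg (fun i => (hB _ _).le)
  have hRH : ∀ j : Fin N, Rj B (Equiv.refl (Fin (N + 1))) j ≤ H := by
    intro j
    refine le_trans ?_ hBH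
    unfold Rj bn
    apply Finset.prod_le_prod
    · intro w _
      apply pow_nonneg
      apply le_min (hB _ _).le
      exact Real.iSup_nonneg (fun i => (hB _ _).le)
    · intro w _
      apply pow_le_pow_left₀
      · apply le_min (hB _ _).le
        exact Real.iSup_nonneg (fun i => (hB _ _).le)
      · exact (min_le_left _ _).trans (hiSup _ w)
  have hvol : 0 ≤ vol B := by
    rw [← htel]
    exact Finset.prod_nonneg (fun j _ => hR0 j)
  have hHp : (0 : ℝ) ≤ H ^ (N - 1) := by positivity
  have key : ∏ j : Fin N, (Rj B (Equiv.refl (Fin (N + 1))) j + 1) ≤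
      2 ^ N * (vol B + H ^ (N - 1)) := by
    by_cases hall : ∀ j : Fin N, 1 ≤ Rj B (Equiv.refl (Fin (N + 1))) j
    · calc ∏ j : Fin N, (Rj B (Equiv.refl (Fin (N + 1))) j + 1)
          ≤ ∏ j : Fin N, (2 * Rj B (Equiv.refl (Fin (N + 1))) j) := by
            apply Finset.prod_le_prod
            · intro j _
              linarith [hR0 j]
            · intro j _
              linarith [hall j]
        _ = 2 ^ N * vol B := by
            rw [Finset.prod_mul_distrib, htel]
            simp
        _ ≤ 2 ^ N * (vol B + H ^ (N - 1)) := by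
            apply mul_le_mul_of_nonneg_left _ (by positivity)
            linarith
    · push Not at hall
      obtain ⟨j₀, hj₀⟩ := hall
      rw [← Finset.mul_prod_erase _ _ (Finset.mem_univ j₀)]
      calc (Rj B (Equiv.refl (Fin (N + 1))) j₀ + 1) *
            ∏ j ∈ univ.erase j₀, (Rj B (Equiv.refl (Fin (N + 1))) j + 1)
          ≤ 2 * ∏ j ∈ univ.erase j₀, (2 * H) := by
            apply mul_le_mul
            · linarith
            · apply Finset.prod_le_prod
              · intro j _
                linarith [hR0 j]
              · intro j _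
                linarith [hRH j]
            · apply Finset.prod_nonneg
              intro j _
              linarith [hR0 j]
            · norm_num
        _ = 2 ^ N * H ^ (N - 1) := by
            rw [Finset.prod_const, Finset.card_erase_of_mem (Finset.mem_univ _), Finset.card_univ,
              Fintype.card_fin, mul_pow, ← mul_assoc, ← pow_succ', Nat.sub_add_cancel hN]
        _ ≤ 2 ^ N * (vol B + H ^ (N - 1)) := by
            apply mul_le_mul_of_nonneg_left _ (by positivity)
            linarith
  calc (F.card : ℝ) ≤ C * ∏ j : Fin N, (Rj B (Equiv.refl (Fin (N + 1))) j + 1) := hA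
    _ ≤ C * (2 ^ N * (vol B + H ^ (N - 1))) := mul_le_mul_of_nonneg_left key hC0.le
    _ = C * 2 ^ N * (vol B + H ^ (N - 1)) := by ring

end Pool.Agent.N897.KG
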